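import Pool.Agent.U308.TL.Mult
import Pool.Agent.U308.LP.Multi
import Pool.Agent.N469.LP.Adm
import Pool.Agent.R459.C2

set_option autoImplicit false

/-! Goldbach representations in all the classes and windows, for all the even multiples (by bounded factors) of all the integers
near almost all very smooth numbers. -/

namespace Pool.Agent.U308.GL

open Finset
open Pool.Agent.H560R3.GB (sing)
open Pool.Agent.H373R2.T7 (ev_L' ev_log')
open Pool.Agent.U308.TL (Cond2)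
open Pool.Agent.N469.LP (GoodL cpw adm adm_eq cnt_pos or_event)
open Pool.Agent.N469.SM (SS)

/-- The number of representations `m = p + p'` as a sum of two primes with `y₁ < p ≤ y₂` and `p ≡ a mod d`. -/
def G (m d a y₁ y₂ : ℕ) : ℕ :=
  ((Ioc y₁ y₂).filter fun p : ℕ => p.Prime ∧ p ≡ a [MOD d] ∧ (m - p).Prime).card

/-- The number of the classes `x mod d` for which `x` and `m - x` are prime to `d`. -/
def classes (m d : ℕ) : ℕ :=
  ((range d).filter fun x : ℕ => Nat.Coprime x d ∧ Int.gcd ((m : ℤ) - x) d = 1).card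

/-- For all `1 ≤ d ≤ log ^ D m`, all the classes `a mod d` for which `a` and `m - a` are prime to `d` and all the windows
`(y₁, y₂] ⊆ (0, m)` of length at least `m / log ^ A m`: the number `G` of the representations of `m` with `p` in the class and in
the window is at least `1.3 (y₂ - y₁) / (classes m d * log ^ 2 m)`, and it is
`sing m * (y₂ - y₁) / (classes m d * log ^ 2 m)` up to a relative error of at most `ε`. -/
def Classes (ε : ℝ) (A D m : ℕ) : Prop :=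
  ∀ d a y₁ y₂ : ℕ, 1 ≤ d → (d : ℝ) ≤ Real.log m ^ D → Nat.Coprime a d → Int.gcd ((m : ℤ) - a) d = 1 → y₂ < m →
    (m : ℝ) / Real.log m ^ A ≤ (y₂ : ℝ) - y₁ →
    13 / 10 * (((y₂ : ℝ) - y₁) / (classes m d * Real.log m ^ 2)) ≤ G m d a y₁ y₂ ∧
    |(G m d a y₁ y₂ : ℝ) - sing m * (((y₂ : ℝ) - y₁) / (classes m d * Real.log m ^ 2))| ≤
      ε * (sing m * (((y₂ : ℝ) - y₁) / (classes m d * Real.log m ^ 2)))

lemma classes_eq (m d : ℕ) (hd : 1 ≤ d) : (classes m d : ℝ) = (Pool.Agent.W93.PP.Cnt d m : ℝ) := by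
  have h := adm_eq (-1) (m : ℤ) (by simp) d hd
  have e : (-1 * (m : ℤ)).natAbs = m := by simp
  rw [e] at h
  rw [← h]
  unfold classes adm
  congr 2
  ext x
  rw [mem_filter, mem_filter]
  have e2 : -1 * (x : ℤ) + (m : ℤ) = (m : ℤ) - x := by ring
  rw [e2]

/-- the logarithm of a number between `N / log ^ w N` and `Bc N` -/
lemma log_near (η : ℝ) (hη : 0 < η) (w Bc : ℕ) : ∃ N₀ : ℕ, ∀ N : ℕ, N₀ ≤ N → ∀ m : ℕ, (N : ℝ) / Real.log N ^ w ≤ m → m ≤ Bc * N →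
    (1 - η) * Real.log N ≤ Real.log m ∧ Real.log m ≤ (1 + η) * Real.log N := by
  obtain ⟨N1, h1⟩ := ev_L' ((2 * w / η) ^ 2 + 1)
  obtain ⟨N2, h2⟩ := ev_L' (Real.log (Bc + 1) / η)
  refine ⟨N1 + N2 + 2, fun N hN m hm1 hm2 => ?_⟩
  have k1 := h1 N (by omega)
  have k2 := h2 N (by omega)
  have hN0 : (0 : ℝ) < N := by exact_mod_cast (by omega : 0 < N)
  obtain ⟨L, hL⟩ : ∃ L, L = Real.log (N : ℝ) := ⟨_, rfl⟩
  rw [← hL] at k1 k2 hm1 ⊢
  have hL1 : 1 ≤ L := by nlinarith [sq_nonneg (2 * w / η)]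
  have hL0 : 0 < L := by linarith
  have hm0 : (0 : ℝ) < m := lt_of_lt_of_le (by positivity) hm1
  constructor
  · have a1 : Real.log ((N : ℝ) / L ^ w) ≤ Real.log m := Real.log_le_log (by positivity) hm1
    rw [Real.log_div (by positivity) (by positivity), Real.log_pow, ← hL] at a1
    have a2 : Real.log L ≤ 2 * √L := by
      have b1 : Real.log L = 2 * Real.log √L := by
        rw [Real.log_sqrt hL0.le]; ring
      have b2 : Real.log √L ≤ √L := (Real.log_le_sub_one_of_pos (Real.sqrt_pos.2 hL0)).trans (by linarith)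
      linarith
    have a3 : 2 * w / η ≤ √L := by
      rw [← Real.sqrt_sq (show 0 ≤ 2 * w / η by positivity)]
      exact Real.sqrt_le_sqrt (by linarith)
    have a4 : 2 * w ≤ η * √L := by
      rw [div_le_iff₀ hη] at a3
      linarith
    have a5 : √L * √L = L := Real.mul_self_sqrt hL0.le
    have a6 : (w : ℝ) * Real.log L ≤ η * L := by
      calc (w : ℝ) * Real.log L ≤ w * (2 * √L) := mul_le_mul_of_nonneg_left a2 (Nat.cast_nonneg _)
        _ = (2 * w) * √L := by ring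
        _ ≤ (η * √L) * √L := mul_le_mul_of_nonneg_right a4 (Real.sqrt_nonneg _)
        _ = η * L := by rw [mul_assoc, a5]
    linarith
  · have a1 : (m : ℝ) ≤ (Bc + 1) * N := by
      have : (m : ℝ) ≤ Bc * N := by exact_mod_cast hm2
      linarith
    have a2 : Real.log m ≤ Real.log ((Bc + 1) * N) := Real.log_le_log hm0 a1
    rw [Real.log_mul (by positivity) (by positivity), ← hL] at a2
    rw [div_le_iff₀ hη] at k2
    linarith

/-- from the general form of the result to `Classes` -/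
lemma classes_of (ε : ℝ) (hε : 0 < ε) (A D w Bc : ℕ) : ∃ (ε' : ℝ) (N₀ : ℕ), 0 < ε' ∧ ∀ N : ℕ, N₀ ≤ N → ∀ m : ℕ,
    (N : ℝ) / Real.log N ^ w ≤ m → m ≤ Bc * N → Even m → GoodL ε' Bc (D + 1) (w + A + 1) (-1) N (m : ℤ) → Classes ε A D m := by
  obtain ⟨η, hη⟩ : ∃ η, η = min ε (1 / 200) / 16 := ⟨_, rfl⟩
  have hmin0 : 0 < min ε (1 / 200) := lt_min hε (by norm_num)
  have hη0 : 0 < η := by rw [hη]; positivity
  have hη1 : η ≤ 1 / 3200 := by
    rw [hη]
    have := min_le_right ε (1 / 200 : ℝ)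
    linarith
  obtain ⟨N1, h1⟩ := log_near η hη0 w Bc
  obtain ⟨N2, h2⟩ := ev_L' ((2 : ℝ) ^ A + 2 ^ D + 4)
  refine ⟨η, N1 + N2 + 2, hη0, fun N hN m hm1 hm2 hev hG => ?_⟩
  obtain ⟨l1, l2⟩ := h1 N (by omega) m hm1 hm2
  have k2 := h2 N (by omega)
  obtain ⟨L, hL⟩ : ∃ L, L = Real.log (N : ℝ) := ⟨_, rfl⟩
  obtain ⟨l, hl⟩ : ∃ l, l = Real.log (m : ℝ) := ⟨_, rfl⟩
  have hN0 : (0 : ℝ) < N := by exact_mod_cast (by omega : 0 < N)
  have hpA : (0 : ℝ) < 2 ^ A := by positivity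
  have hpD : (0 : ℝ) < 2 ^ D := by positivity
  intro d a y₁ y₂ hd hdl ha hma hy hw
  rw [← hL] at l1 l2 k2 hm1
  rw [← hl] at l1 l2 hdl hw ⊢
  have hL4 : 4 ≤ L := by linarith
  have hL0 : 0 < L := by linarith
  have hl2 : l ≤ 2 * L := by nlinarith
  have hl1 : L / 2 ≤ l := by nlinarith
  have hl0 : 0 < l := by linarith
  have hm0 : (0 : ℝ) < m := lt_of_lt_of_le (by positivity) hm1
  -- the modulus
  have c1 : (d : ℝ) ≤ Real.log N ^ (D + 1) := by
    rw [← hL]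
    calc (d : ℝ) ≤ l ^ D := hdl
      _ ≤ (2 * L) ^ D := pow_le_pow_left₀ hl0.le hl2 D
      _ = 2 ^ D * L ^ D := mul_pow _ _ _
      _ ≤ L * L ^ D := mul_le_mul_of_nonneg_right (by linarith) (by positivity)
      _ = L ^ (D + 1) := by ring
  -- the window
  have c2 : (y₁ : ℝ) + N / Real.log N ^ (w + A + 1) ≤ y₂ := by
    rw [← hL]
    have b1 : l ^ A ≤ L ^ (A + 1) := by
      calc l ^ A ≤ (2 * L) ^ A := pow_le_pow_left₀ hl0.le hl2 A
        _ = 2 ^ A * L ^ A := mul_pow _ _ _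
        _ ≤ L * L ^ A := mul_le_mul_of_nonneg_right (by linarith) (by positivity)
        _ = L ^ (A + 1) := by ring
    have b2 : (N : ℝ) / L ^ (w + A + 1) ≤ m / l ^ A := by
      rw [div_le_div_iff₀ (by positivity) (by positivity)]
      rw [div_le_iff₀ (by positivity)] at hm1
      calc (N : ℝ) * l ^ A ≤ (m * L ^ w) * L ^ (A + 1) := mul_le_mul hm1 b1 (by positivity) (by positivity)
        _ = m * L ^ (w + A + 1) := by rw [show w + A + 1 = w + (A + 1) by omega, pow_add]; ring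
    linarith
  have c3 := hG d a y₁ y₂ hd c1 ha (by
    have e : -1 * (a : ℤ) + (m : ℤ) = (m : ℤ) - a := by ring
    rw [e]; exact hma) (by omega) c2 (by
    intro n hn
    rw [mem_Ioc] at hn
    omega)
  have eG : cpw (-1) (m : ℤ) d a y₁ y₂ = G m d a y₁ y₂ := by
    unfold cpw G
    congr 1
    apply filter_congr
    intro n hn
    rw [mem_Ioc] at hn
    have e : (-1 * (n : ℤ) + (m : ℤ)).toNat = m - n := by omega
    rw [e]
  have eD : Pool.Agent.N469.LP.dens (-1) (m : ℤ) d = sing m / classes m d := by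
    unfold Pool.Agent.N469.LP.dens
    have e : (-1 * (m : ℤ)).natAbs = m := by simp
    rw [e, classes_eq m d hd]
  rw [eG, eD, ← hL] at c3
  have hcl : (0 : ℝ) < classes m d := by
    rw [classes_eq m d hd]
    exact_mod_cast cnt_pos d m hd hev.two_dvd
  have hs := Pool.Agent.R459.sing_num m
  have hyy : (0 : ℝ) < (y₂ : ℝ) - y₁ := lt_of_lt_of_le (by positivity) hw
  obtain ⟨T, hT⟩ : ∃ T, T = ((y₂ : ℝ) - y₁) / (classes m d * l ^ 2) := ⟨_, rfl⟩
  have hT0 : 0 < T := by rw [hT]; positivity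
  rw [← hT]
  obtain ⟨ρ, hρ⟩ : ∃ ρ, ρ = (l / L) ^ 2 := ⟨_, rfl⟩
  have e3 : sing m / classes m d * (((y₂ : ℝ) - y₁) / L ^ 2) = ρ * (sing m * T) := by
    rw [hρ, hT]
    field_simp
  rw [e3] at c3
  have r1 : 1 - η ≤ l / L := by rw [le_div_iff₀ hL0]; exact l1
  have r2 : l / L ≤ 1 + η := by rw [div_le_iff₀ hL0]; exact l2
  have hρ1 : ρ ≤ 1 + 3 * η := by
    rw [hρ]
    have : 0 ≤ l / L := by positivity
    nlinarith
  have hρ2 : 1 - 3 * η ≤ ρ := by
    rw [hρ]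
    nlinarith
  have hsT : 327 / 250 * T ≤ sing m * T := mul_le_mul_of_nonneg_right hs hT0.le
  have hS0 : 0 < sing m * T := by linarith
  obtain ⟨S, hS⟩ : ∃ S, S = sing m * T := ⟨_, rfl⟩
  rw [← hS] at c3 hsT hS0 ⊢
  have hρS1 : ρ * S ≤ (1 + 3 * η) * S := mul_le_mul_of_nonneg_right hρ1 hS0.le
  have hρS2 : (1 - 3 * η) * S ≤ ρ * S := mul_le_mul_of_nonneg_right hρ2 hS0.le
  have hηS : 0 < η * S := by positivity
  have c4 : |(G m d a y₁ y₂ : ℝ) - S| ≤ 5 * (η * S) := by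
    have d1 := abs_le.1 c3
    have d2 : η * (ρ * S) ≤ η * (2 * S) := by
      apply mul_le_mul_of_nonneg_left _ hη0.le
      nlinarith
    rw [abs_le]
    constructor <;> nlinarith [d1.1, d1.2]
  constructor
  · have d1 := (abs_le.1 c4).1
    have d2 : η * S ≤ 1 / 3200 * S := mul_le_mul_of_nonneg_right hη1 hS0.le
    linarith
  · refine c4.trans ?_
    have d3 : 16 * η ≤ ε := by
      rw [hη]
      have := min_le_left ε (1 / 200 : ℝ)
      linarith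
    nlinarith

/-- one multiplier -/
theorem sm_one (κ : ℤ) (hκ : κ ≠ 0) (K B A D W U : ℕ) (ε : ℝ) (hε : 0 < ε) (δ : ℝ) (hδ : 0 < δ) (h : ℕ) (hh : 1 ≤ h) :
    ∃ N₀ : ℕ, ∀ N, N₀ ≤ N → ∀ P y, Cond2 δ K N P y → ∀ E : ℕ → Prop, ∀ _ : DecidablePred E,
    (∃ c : ℤ, |c| ≤ B * N ∧ ∀ v, E v → 1 ≤ v ∧ v ≤ N ∧ ∃ q : ℕ, 1 ≤ q ∧ |((q - (c + κ * v) : ℤ) : ℝ)| ≤ Real.log N ^ W ∧
      Even (h * q) ∧ ¬ Classes ε A D (h * q)) →
    ∑ v ∈ SS P N, (if E v then 1 / ((SS P N).card : ℝ) else 0) ≤ 1 / Real.log N ^ U := by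
  classical
  obtain ⟨Ws, N1, h1⟩ := Pool.Agent.U308.TL.sm_small2 δ hδ K κ hκ (U + 1)
  obtain ⟨Bc, hBc⟩ : ∃ Bc, Bc = h * (B + κ.natAbs + 1) := ⟨_, rfl⟩
  obtain ⟨ε', N2, hε', h2⟩ := classes_of ε hε A D (Ws + 1) Bc
  obtain ⟨N3, h3⟩ := Pool.Agent.U308.LP.sm_lin2 ε' hε' ((h : ℤ) * κ) (mul_ne_zero (by exact_mod_cast (by omega : h ≠ 0)) hκ) (-1)
    (by norm_num) K Bc (W + 1) (D + 1) (Ws + 1 + A + 1) (U + 1) δ hδ
  obtain ⟨N4, h4⟩ := ev_L' ((h : ℝ) + 4)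
  obtain ⟨N5, h5⟩ := ev_log' (W + Ws) 8
  obtain ⟨N6, h6⟩ := ev_log' W 1
  refine ⟨N1 + N2 + N3 + N4 + N5 + N6 + 4, fun N hN P y hP E _ hE => ?_⟩
  obtain ⟨c, hc, hbad⟩ := hE
  have hL4 := h4 N (by omega)
  have k5 := h5 N (by omega)
  have k6 := h6 N (by omega)
  have k1 := h1 N (by omega) P y hP
  have k2 := h2 N (by omega)
  have k3 := h3 N (by omega) P y hP
  have hN1 : (4 : ℝ) ≤ N := by exact_mod_cast (by omega : 4 ≤ N)
  have hN0 : (0 : ℝ) < N := by linarith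
  have hsq : √(N : ℝ) ≤ N := by
    rw [Real.sqrt_le_left hN0.le]
    nlinarith
  obtain ⟨L, hL⟩ : ∃ L, L = Real.log (N : ℝ) := ⟨_, rfl⟩
  rw [← hL] at hL4 k5 k6 k1 k2 k3 hbad ⊢
  have hhr : (1 : ℝ) ≤ h := by exact_mod_cast hh
  have hL0 : 0 < L := by linarith
  have hL2 : 2 ≤ L := by linarith
  obtain ⟨R, hR⟩ : ∃ R : ℕ, R = ⌊L ^ W⌋₊ := ⟨_, rfl⟩
  have hRle : (R : ℝ) ≤ L ^ W := by rw [hR]; exact Nat.floor_le (by positivity)
  refine or_event hL2 U E (fun v => 1 ≤ (c + R) + κ * (v : ℤ) ∧ (((c + R) + κ * (v : ℤ) : ℤ) : ℝ) * L ^ Ws < N)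
    (fun v => ∃ r : ℤ, |(r : ℝ)| ≤ L ^ (W + 1) ∧ (h : ℤ) * c + (h : ℤ) * κ * (v : ℤ) + r ≠ 0 ∧
      Int.gcd (-1) ((h : ℤ) * c + (h : ℤ) * κ * (v : ℤ) + r) = 1 ∧ 2 ∣ -1 * ((h : ℤ) * c + (h : ℤ) * κ * (v : ℤ) + r) ∧
      ¬ GoodL ε' Bc (D + 1) (Ws + 1 + A + 1) (-1) N ((h : ℤ) * c + (h : ℤ) * κ * (v : ℤ) + r)) ?_
    (k1 (c + R)) (k3 _ (fun v => inferInstance) ⟨(h : ℤ) * c, ?_, fun v hv => hv⟩)
  · intro v hv
    obtain ⟨hv1, hvN, q, hq1, hq, hev, hnot⟩ := hbad v hv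
    have hqR : (q : ℤ) - (c + κ * v) ≤ R := by
      have a1 : (((q : ℤ) - (c + κ * v) : ℤ) : ℝ) ≤ L ^ W := (le_abs_self _).trans hq
      by_contra hcon
      push Not at hcon
      have a2 : ((R + 1 : ℕ) : ℤ) ≤ (q : ℤ) - (c + κ * v) := by push_cast; omega
      have a3 : ((R + 1 : ℕ) : ℝ) ≤ (((q : ℤ) - (c + κ * v) : ℤ) : ℝ) := by exact_mod_cast a2
      have a4 : L ^ W < ((R + 1 : ℕ) : ℝ) := by
        rw [hR]
        push_cast
        exact Nat.lt_floor_add_one _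
      linarith
    have hqR2 : -(R : ℤ) ≤ (q : ℤ) - (c + κ * v) := by
      have a1 : -L ^ W ≤ (((q : ℤ) - (c + κ * v) : ℤ) : ℝ) := (abs_le.1 hq).1
      by_contra hcon
      push Not at hcon
      have a2 : (q : ℤ) - (c + κ * v) ≤ -((R + 1 : ℕ) : ℤ) := by push_cast; omega
      have a3 : (((q : ℤ) - (c + κ * v) : ℤ) : ℝ) ≤ -((R + 1 : ℕ) : ℝ) := by exact_mod_cast a2
      have a4 : L ^ W < ((R + 1 : ℕ) : ℝ) := by
        rw [hR]
        push_cast
        exact Nat.lt_floor_add_one _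
      linarith
    by_cases hsmall : (q : ℝ) * L ^ (Ws + 1) < N
    · left
      refine ⟨by omega, ?_⟩
      have a1 : (((c + R) + κ * (v : ℤ) : ℤ) : ℝ) ≤ (q : ℝ) + 2 * R := by
        have : (c + R) + κ * (v : ℤ) ≤ (q : ℤ) + 2 * R := by omega
        exact_mod_cast this
      have a2 : (0 : ℝ) < L ^ Ws := by positivity
      have a3 : (q : ℝ) * L ^ Ws ≤ N / 2 := by
        have : (q : ℝ) * L ^ (Ws + 1) = (q : ℝ) * L ^ Ws * L := by ring
        have b1 : 0 ≤ (q : ℝ) * L ^ Ws := by positivity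
        nlinarith
      have a4 : (R : ℝ) * L ^ Ws ≤ L ^ (W + Ws) := by
        rw [pow_add]
        exact mul_le_mul_of_nonneg_right hRle a2.le
      have a5 : (0 : ℝ) < L ^ (W + Ws) := by positivity
      calc (((c + R) + κ * (v : ℤ) : ℤ) : ℝ) * L ^ Ws ≤ ((q : ℝ) + 2 * R) * L ^ Ws := mul_le_mul_of_nonneg_right a1 a2.le
        _ = (q : ℝ) * L ^ Ws + 2 * (R * L ^ Ws) := by ring
        _ < N := by linarith
    · right
      push Not at hsmall
      have e1 : (h : ℤ) * c + (h : ℤ) * κ * (v : ℤ) + (h : ℤ) * ((q : ℤ) - (c + κ * v)) = ((h * q : ℕ) : ℤ) := by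
        push_cast; ring
      refine ⟨(h : ℤ) * ((q : ℤ) - (c + κ * v)), ?_, ?_, ?_, ?_, ?_⟩
      · push_cast at hq ⊢
        rw [abs_mul, abs_of_nonneg (by linarith : (0 : ℝ) ≤ h), pow_succ']
        exact mul_le_mul (by linarith) hq (abs_nonneg _) hL0.le
      · rw [e1]
        have : 0 < h * q := Nat.mul_pos (by omega) (by omega)
        exact_mod_cast this.ne'
      · simp
      · rw [e1]
        obtain ⟨k, hk⟩ := hev
        exact ⟨-(k : ℤ), by rw [hk]; push_cast; ring⟩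
      · rw [e1]
        intro hG
        apply hnot
        refine k2 (h * q) ?_ ?_ hev hG
        · rw [div_le_iff₀ (by positivity)]
          push_cast
          have a1 : (0 : ℝ) ≤ (q : ℝ) * L ^ (Ws + 1) := by positivity
          nlinarith
        · rw [hBc]
          have a1 : (q : ℤ) ≤ (B + κ.natAbs + 1 : ℕ) * N := by
            have b1 : c ≤ B * N := (le_abs_self _).trans hc
            have b2 : κ * (v : ℤ) ≤ κ.natAbs * N := by
              have c1 : κ ≤ κ.natAbs := Int.le_natAbs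
              calc κ * (v : ℤ) ≤ κ.natAbs * (v : ℤ) := mul_le_mul_of_nonneg_right c1 (by positivity)
                _ ≤ κ.natAbs * N := mul_le_mul_of_nonneg_left (by exact_mod_cast hvN) (by positivity)
            have b3 : (R : ℤ) ≤ N := by
              have c1 : (R : ℝ) ≤ N := by linarith
              exact_mod_cast c1
            push_cast at b2 ⊢
            nlinarith
          have a2 : q ≤ (B + κ.natAbs + 1) * N := by exact_mod_cast a1
          calc h * q ≤ h * ((B + κ.natAbs + 1) * N) := Nat.mul_le_mul_left _ a2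
            _ = h * (B + κ.natAbs + 1) * N := by ring
  · rw [abs_mul, abs_of_nonneg (by positivity : (0 : ℤ) ≤ h), hBc]
    push_cast
    have b1 : (h : ℤ) * |c| ≤ h * (B * N) := mul_le_mul_of_nonneg_left hc (by positivity)
    have b2 : (0 : ℤ) ≤ h * ((|κ| + 1) * N) := by positivity
    nlinarith

/-- all the multipliers up to `M` -/
theorem sm_all (κ : ℤ) (hκ : κ ≠ 0) (K B A D W : ℕ) (ε : ℝ) (hε : 0 < ε) (δ : ℝ) (hδ : 0 < δ) (M : ℕ) : ∀ U : ℕ,
    ∃ N₀ : ℕ, ∀ N, N₀ ≤ N → ∀ P y, Cond2 δ K N P y → ∀ E : ℕ → Prop, ∀ _ : DecidablePred E,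
    (∃ c : ℤ, |c| ≤ B * N ∧ ∀ v, E v → 1 ≤ v ∧ v ≤ N ∧ ∃ h : ℕ, 1 ≤ h ∧ h ≤ M ∧ ∃ q : ℕ, 1 ≤ q ∧
      |((q - (c + κ * v) : ℤ) : ℝ)| ≤ Real.log N ^ W ∧ Even (h * q) ∧ ¬ Classes ε A D (h * q)) →
    ∑ v ∈ SS P N, (if E v then 1 / ((SS P N).card : ℝ) else 0) ≤ 1 / Real.log N ^ U := by
  classical
  induction M with
  | zero =>
    intro U
    refine ⟨3, fun N hN P y _ E _ hE => ?_⟩
    obtain ⟨c, _, hE⟩ := hE
    have hno : ∀ v, ¬ E v := by
      intro v hv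
      obtain ⟨_, _, h, h1, h2, _⟩ := hE v hv
      omega
    have h0 : 0 ≤ Real.log N := Real.log_natCast_nonneg N
    refine le_trans (le_of_eq ?_) (show (0 : ℝ) ≤ 1 / Real.log N ^ U by positivity)
    apply sum_eq_zero
    intro v _
    rw [if_neg (hno v)]
  | succ M ih =>
    intro U
    obtain ⟨N1, h1⟩ := ih (U + 1)
    obtain ⟨N2, h2⟩ := sm_one κ hκ K B A D W (U + 1) ε hε δ hδ (M + 1) (by omega)
    obtain ⟨N3, h3⟩ := ev_L' 2
    refine ⟨N1 + N2 + N3, fun N hN P y hP E _ hE => ?_⟩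
    obtain ⟨c, hc, hE⟩ := hE
    have a1 := h1 N (by omega) P y hP (fun v => 1 ≤ v ∧ v ≤ N ∧ ∃ h : ℕ, 1 ≤ h ∧ h ≤ M ∧ ∃ q : ℕ, 1 ≤ q ∧
      |((q - (c + κ * v) : ℤ) : ℝ)| ≤ Real.log N ^ W ∧ Even (h * q) ∧ ¬ Classes ε A D (h * q))
      (fun v => inferInstance) ⟨c, hc, fun v hv => hv⟩
    have a2 := h2 N (by omega) P y hP (fun v => 1 ≤ v ∧ v ≤ N ∧ ∃ q : ℕ, 1 ≤ q ∧ |((q - (c + κ * v) : ℤ) : ℝ)| ≤ Real.log N ^ W ∧
      Even ((M + 1) * q) ∧ ¬ Classes ε A D ((M + 1) * q)) (fun v => inferInstance) ⟨c, hc, fun v hv => hv⟩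
    refine or_event (h3 N (by omega)) U E _ _ ?_ a1 a2
    intro v hv
    obtain ⟨v1, v2, h, c1, c2, c3⟩ := hE v hv
    rcases Nat.lt_or_ge h (M + 1) with h' | h'
    · exact Or.inl ⟨v1, v2, h, c1, by omega, c3⟩
    · have : h = M + 1 := by omega
      subst this
      exact Or.inr ⟨v1, v2, c3⟩

end Pool.Agent.U308.GL
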